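import Mathlib

set_option autoImplicit false
open Filter Topology

namespace Pool.Agent.Helper17.MF

theorem sum_range_mul (L m : ℕ) (g : ℕ → ℝ) :
    ∑ i ∈ Finset.range (L * m), g i = ∑ r ∈ Finset.range L, ∑ i ∈ Finset.range m, g (L * i + r) := by
  induction m with
  | zero => simp
  | succ m ih =>
    rw [Nat.mul_succ, Finset.sum_range_add, ih, ← Finset.sum_add_distrib]
    refine Finset.sum_congr rfl fun r _ => ?_
    rw [Finset.sum_range_succ]

/-- averages of a bounded function from the averages over the residue classes -/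
theorem avg_of_classes (L : ℕ) (hL : 0 < L) (g : ℕ → ℝ) (hg : ∀ n, 0 ≤ g n ∧ g n ≤ 1)
    (f : ℕ → ℝ) (hf : ∀ r < L, Tendsto
      (fun n : ℕ => (∑ i ∈ Finset.range n, g (L * i + r)) / (n : ℝ)) atTop (𝓝 (f r))) :
    Tendsto (fun n : ℕ => (∑ i ∈ Finset.range n, g i) / (n : ℝ)) atTop
      (𝓝 ((∑ r ∈ Finset.range L, f r) / (L : ℝ))) := by
  have hLR : (0 : ℝ) < L := by exact_mod_cast hL
  -- along the multiples of `L`
  have h1 : Tendsto (fun m : ℕ => (∑ i ∈ Finset.range (L * m), g i) / (m : ℝ)) atTop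
      (𝓝 (∑ r ∈ Finset.range L, f r)) := by
    have h2 : Tendsto (fun m : ℕ => ∑ r ∈ Finset.range L,
        (∑ i ∈ Finset.range m, g (L * i + r)) / (m : ℝ)) atTop (𝓝 (∑ r ∈ Finset.range L, f r)) :=
      tendsto_finset_sum _ fun r hr => hf r (Finset.mem_range.1 hr)
    refine h2.congr fun m => ?_
    rw [sum_range_mul, Finset.sum_div]
  have hdiv : Tendsto (fun n : ℕ => n / L) atTop atTop := Nat.tendsto_div_const_atTop hL.ne'
  have h3 := h1.comp hdiv
  have h4 : Tendsto (fun n : ℕ => ((n / L : ℕ) : ℝ) / (n : ℝ)) atTop (𝓝 (1 / (L : ℝ))) := by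
    have h5 : Tendsto (fun n : ℕ => (L : ℝ) / (n : ℝ)) atTop (𝓝 0) :=
      tendsto_const_div_atTop_nhds_zero_nat _
    rw [tendsto_iff_norm_sub_tendsto_zero]
    refine squeeze_zero' (Eventually.of_forall fun n => norm_nonneg _) ?_
      (h5.div_const (L : ℝ) |>.trans (by simp))
    filter_upwards [eventually_gt_atTop 0] with n hn
    have hnR : (0 : ℝ) < n := by exact_mod_cast hn
    have e1 : (n : ℝ) = L * ((n / L : ℕ) : ℝ) + ((n % L : ℕ) : ℝ) := by
      exact_mod_cast (Nat.div_add_mod n L).symm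
    have e2 : ((n % L : ℕ) : ℝ) ≤ L := by exact_mod_cast (Nat.mod_lt n hL).le
    have e3 : (0 : ℝ) ≤ ((n % L : ℕ) : ℝ) := by positivity
    have e4 : ((n / L : ℕ) : ℝ) / n - 1 / L = - (((n % L : ℕ) : ℝ) / (n * L)) := by
      field_simp
      linarith
    rw [e4, norm_neg, Real.norm_eq_abs, abs_of_nonneg (by positivity), div_div]
    gcongr
  have h6 := h3.mul h4
  have h7 : Tendsto (fun n : ℕ => (∑ i ∈ Finset.range n, g i) / (n : ℝ) -
      ((∑ i ∈ Finset.range (L * (n / L)), g i) / ((n / L : ℕ) : ℝ)) * (((n / L : ℕ) : ℝ) / (n : ℝ)))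
      atTop (𝓝 0) := by
    have h5 : Tendsto (fun n : ℕ => (L : ℝ) / (n : ℝ)) atTop (𝓝 0) :=
      tendsto_const_div_atTop_nhds_zero_nat _
    refine squeeze_zero_norm' ?_ h5
    filter_upwards [eventually_ge_atTop L] with n hn
    have hn0 : 0 < n := lt_of_lt_of_le hL hn
    have hnR : (0 : ℝ) < n := by exact_mod_cast hn0
    have hq : 0 < n / L := Nat.div_pos hn hL
    have hqR : (0 : ℝ) < ((n / L : ℕ) : ℝ) := by exact_mod_cast hq
    have e1 : ∑ i ∈ Finset.range n, g i = ∑ i ∈ Finset.range (L * (n / L)), g i +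
        ∑ i ∈ Finset.range (n % L), g (L * (n / L) + i) := by
      rw [← Finset.sum_range_add, Nat.div_add_mod]
    have e2 : (∑ i ∈ Finset.range n, g i) / (n : ℝ) -
        ((∑ i ∈ Finset.range (L * (n / L)), g i) / ((n / L : ℕ) : ℝ)) * (((n / L : ℕ) : ℝ) / (n : ℝ))
        = (∑ i ∈ Finset.range (n % L), g (L * (n / L) + i)) / n := by
      rw [e1]
      field_simp
      ring
    rw [e2, Real.norm_eq_abs, abs_of_nonneg (div_nonneg (Finset.sum_nonneg fun i _ => (hg _).1) hnR.le)]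
    gcongr
    calc ∑ i ∈ Finset.range (n % L), g (L * (n / L) + i) ≤ ∑ i ∈ Finset.range (n % L), (1 : ℝ) :=
          Finset.sum_le_sum fun i _ => (hg _).2
      _ = ((n % L : ℕ) : ℝ) := by simp
      _ ≤ L := by exact_mod_cast (Nat.mod_lt n hL).le
  have h8 := h7.add h6
  simp only [Function.comp_def, sub_add_cancel, zero_add, mul_one_div] at h8
  exact h8

end Pool.Agent.Helper17.MF
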