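import Mathlib

set_option autoImplicit false
open Filter Topology

namespace Pool.Agent.Helper17.MF

/-- the tails of an infinite continued fraction with given positive partial quotients -/
theorem exists_tails (d : ℕ → ℕ) (hd : ∀ n, 1 ≤ d n) :
    ∃ t : ℕ → ℝ, (∀ n, 0 < t n ∧ t n < 1) ∧ ∀ n, (t n)⁻¹ = d n + t (n + 1) := by
  -- the compact sets
  let K : ℕ → Set (ℕ → ℝ) := fun m =>
    {t | (∀ n, t n ∈ Set.Icc (0 : ℝ) 1) ∧ ∀ n < m, t n * (d n + t (n + 1)) = 1}
  have hbox : IsCompact {t : ℕ → ℝ | ∀ n, t n ∈ Set.Icc (0 : ℝ) 1} := by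
    have := isCompact_univ_pi (X := fun _ : ℕ => ℝ) (s := fun _ : ℕ => Set.Icc (0 : ℝ) 1)
      (fun _ => isCompact_Icc)
    simpa [Set.pi] using this
  have hclosed : ∀ m, IsClosed (K m) := by
    intro m
    have h1 : IsClosed {t : ℕ → ℝ | ∀ n, t n ∈ Set.Icc (0 : ℝ) 1} := hbox.isClosed
    have h2 : IsClosed {t : ℕ → ℝ | ∀ n < m, t n * (d n + t (n + 1)) = 1} := by
      have : {t : ℕ → ℝ | ∀ n < m, t n * (d n + t (n + 1)) = 1} =
          ⋂ n, ⋂ (_ : n < m), {t : ℕ → ℝ | t n * (d n + t (n + 1)) = 1} := by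
        ext t; simp
      rw [this]
      refine isClosed_iInter fun n => isClosed_iInter fun _ => ?_
      exact isClosed_eq (by fun_prop) continuous_const
    exact h1.inter h2
  have hcompact : ∀ m, IsCompact (K m) := fun m =>
    hbox.of_isClosed_subset (hclosed m) (fun t ht => ht.1)
  have hne : ∀ m, (K m).Nonempty := by
    intro m
    -- backward construction, shifting the sequence of digits
    have key : ∀ (m : ℕ) (d : ℕ → ℕ), (∀ n, 1 ≤ d n) → ∃ t : ℕ → ℝ,
        (∀ n, t n ∈ Set.Icc (0 : ℝ) 1) ∧ ∀ n < m, t n * (d n + t (n + 1)) = 1 := by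
      intro m
      induction m with
      | zero => intro d _; exact ⟨fun _ => 0, by simp, by simp⟩
      | succ m ih =>
        intro d hd
        obtain ⟨t, h1, h2⟩ := ih (fun n => d (n + 1)) (fun n => hd (n + 1))
        have hpos : (0 : ℝ) < d 0 + t 0 := by
          have : (1 : ℝ) ≤ d 0 := by exact_mod_cast hd 0
          linarith [(h1 0).1]
        refine ⟨fun n => Nat.casesOn n ((d 0 + t 0)⁻¹) t, ?_, ?_⟩
        · intro n
          cases n with
          | zero =>
            have : (1 : ℝ) ≤ d 0 := by exact_mod_cast hd 0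
            exact ⟨inv_nonneg.2 hpos.le, inv_le_one_of_one_le₀ (by linarith [(h1 0).1])⟩
          | succ n => exact h1 n
        · intro n hn
          cases n with
          | zero => exact inv_mul_cancel₀ hpos.ne'
          | succ n => exact h2 n (by omega)
    exact key m d hd
  have hmono : ∀ m, K (m + 1) ⊆ K m := fun m t ht => ⟨ht.1, fun n hn => ht.2 n (by omega)⟩
  obtain ⟨t, ht⟩ := IsCompact.nonempty_iInter_of_sequence_nonempty_isCompact_isClosed K hmono hne
    (hcompact 0) hclosed
  rw [Set.mem_iInter] at ht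
  have h01 : ∀ n, t n ∈ Set.Icc (0 : ℝ) 1 := (ht 0).1
  have hrec : ∀ n, t n * (d n + t (n + 1)) = 1 := fun n => (ht (n + 1)).2 n (by omega)
  have hpos : ∀ n, 0 < t n := by
    intro n
    rcases (h01 n).1.lt_or_eq with h | h
    · exact h
    · have := hrec n
      rw [← h] at this
      simp at this
  have hinv : ∀ n, (t n)⁻¹ = d n + t (n + 1) := fun n => inv_eq_of_mul_eq_one_right (hrec n)
  refine ⟨t, fun n => ⟨hpos n, ?_⟩, hinv⟩
  have h1 : (1 : ℝ) ≤ d n := by exact_mod_cast hd n
  have h2 : 1 < (t n)⁻¹ := by rw [hinv n]; linarith [hpos (n + 1)]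
  exact (one_lt_inv₀ (hpos n)).1 h2

/-- the partial quotients from the tails -/
theorem partDens_of_tails (d : ℕ → ℕ) (t : ℕ → ℝ) (ht : ∀ n, 0 < t n ∧ t n < 1)
    (hrec : ∀ n, (t n)⁻¹ = d n + t (n + 1)) (n : ℕ) :
    (GenContFract.of (t 0)).partDens.get? n = some (d n : ℝ) := by
  have hstream : ∀ n, GenContFract.IntFractPair.stream (t 0) (n + 1) = some ⟨(d n : ℤ), t (n + 1)⟩ := by
    have hof : ∀ n, GenContFract.IntFractPair.of ((t n)⁻¹) = ⟨(d n : ℤ), t (n + 1)⟩ := by
      intro n
      have hfl : ⌊(t n)⁻¹⌋ = (d n : ℤ) := by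
        rw [Int.floor_eq_iff]
        rw [hrec n]
        constructor
        · push_cast; linarith [(ht (n + 1)).1]
        · push_cast; linarith [(ht (n + 1)).2]
      have hfr : Int.fract ((t n)⁻¹) = t (n + 1) := by
        rw [Int.fract, hfl, hrec n]; push_cast; ring
      simp only [GenContFract.IntFractPair.of, hfl, hfr]
    intro n
    induction n with
    | zero =>
      have h0 : GenContFract.IntFractPair.stream (t 0) 0 = some ⟨0, t 0⟩ := by
        rw [GenContFract.IntFractPair.stream_zero]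
        have hfl : ⌊t 0⌋ = 0 := by
          rw [Int.floor_eq_iff]; simp; exact ⟨(ht 0).1.le, (ht 0).2⟩
        simp [GenContFract.IntFractPair.of, hfl, Int.fract]
      rw [GenContFract.IntFractPair.stream, h0]
      simp only [Option.bind_some]
      rw [if_neg (ht 0).1.ne', hof 0]
    | succ n ih =>
      rw [GenContFract.IntFractPair.stream, ih]
      simp only [Option.bind_some]
      rw [if_neg (ht (n + 1)).1.ne', hof (n + 1)]
  have h := GenContFract.get?_of_eq_some_of_succ_get?_intFractPair_stream (hstream n)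
  rw [GenContFract.partDens, Stream'.Seq.map_get?, h]
  simp

end Pool.Agent.Helper17.MF
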