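import Mathlib

set_option autoImplicit false
open Filter Topology MeasureTheory ProbabilityTheory

namespace Pool.Agent.Helper17.MF

/-- a sequence with prescribed frequencies -/
theorem exists_seq_freq (w : ℕ → ℝ) (h0 : ∀ k, 0 ≤ w k) (hs : HasSum w 1) :
    ∃ u : ℕ → ℕ, (∀ n, 0 < w (u n)) ∧ ∀ k, Tendsto
      (fun n : ℕ => (∑ i ∈ Finset.range n, (if u i = k then (1 : ℝ) else 0)) / (n : ℝ))
      atTop (𝓝 (w k)) := by
  classical
  let p : PMF ℕ := ⟨fun k => ENNReal.ofReal (w k), by
    have h1 : ∑' k, ENNReal.ofReal (w k) = 1 := by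
      rw [← ENNReal.ofReal_tsum_of_nonneg h0 hs.summable, hs.tsum_eq, ENNReal.ofReal_one]
    rw [← h1]; exact ENNReal.summable.hasSum⟩
  obtain ⟨Ω, mΩ, P, X, hXm, hXlaw, hXind, hP⟩ := exists_iid (ℕ) p.toMeasure
  have hsupp : ∀ᵐ ω ∂P, ∀ n, 0 < w (X n ω) := by
    rw [ae_all_iff]
    intro n
    have h1 : P.map (X n) = p.toMeasure := (hXlaw n).map_eq
    have h2 : p.toMeasure {k | ¬ 0 < w k} = 0 := by
      rw [PMF.toMeasure_apply_eq_zero_iff _ (MeasurableSet.of_discrete)]
      rw [Set.disjoint_left]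
      intro k hk hk'
      apply hk
      show ENNReal.ofReal (w k) = 0
      rw [ENNReal.ofReal_eq_zero]
      exact not_lt.1 hk'
    rw [ae_iff]
    rw [← h1, Measure.map_apply (hXm n) MeasurableSet.of_discrete] at h2
    exact h2
  have hlim : ∀ᵐ ω ∂P, ∀ k, Tendsto
      (fun n : ℕ => (∑ i ∈ Finset.range n, (if X i ω = k then (1 : ℝ) else 0)) / (n : ℝ))
      atTop (𝓝 (w k)) := by
    rw [ae_all_iff]
    intro k
    have hg : Measurable (fun m : ℕ => if m = k then (1 : ℝ) else 0) := measurable_of_countable _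
    have h1 := strong_law_ae_real (μ := P) (fun i ω => if X i ω = k then (1 : ℝ) else 0) ?_ ?_ ?_
    · have h2 : ∫ ω, (if X 0 ω = k then (1 : ℝ) else 0) ∂P = w k := by
        have h3 : ∫ ω, (fun m : ℕ => if m = k then (1 : ℝ) else 0) (X 0 ω) ∂P =
            ∫ m, (if m = k then (1 : ℝ) else 0) ∂(P.map (X 0)) :=
          (integral_map (hXm 0).aemeasurable hg.aestronglyMeasurable).symm
        rw [(hXlaw 0).map_eq] at h3
        have h4 : (fun m : ℕ => if m = k then (1 : ℝ) else 0) =
            Set.indicator {k} (fun _ => (1 : ℝ)) := by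
          ext m; simp [Set.indicator]
        simp only at h3
        rw [h3, h4, integral_indicator (MeasurableSet.of_discrete)]
        simp only [integral_const, MeasurableSet.of_discrete, measureReal_restrict_apply,
          Set.univ_inter, smul_eq_mul, mul_one]
        rw [measureReal_def, PMF.toMeasure_apply_singleton _ _ MeasurableSet.of_discrete]
        show (ENNReal.ofReal (w k)).toReal = w k
        exact ENNReal.toReal_ofReal (h0 k)
      rw [h2] at h1
      exact h1
    · refine Integrable.mono' (integrable_const (1 : ℝ)) ?_ ?_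
      · exact (hg.comp (hXm 0)).aestronglyMeasurable
      · filter_upwards with ω
        split_ifs <;> simp
    · intro i j hij
      exact (hXind.indepFun hij).comp hg hg
    · intro i
      exact IdentDistrib.comp ⟨(hXm i).aemeasurable, (hXm 0).aemeasurable,
        by rw [(hXlaw i).map_eq, (hXlaw 0).map_eq]⟩ hg
  obtain ⟨ω, h1, h2⟩ := (hsupp.and hlim).exists
  exact ⟨fun n => X n ω, h1, h2⟩

end Pool.Agent.Helper17.MF
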