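import Mathlib

set_option autoImplicit false
open Filter Topology

namespace Pool.Agent.Helper17.MF

/-- the Gauss-Kuzmin frequencies -/
noncomputable def P (k : ℕ) : ℝ :=
  if k = 0 then 0 else Real.logb 2 (1 + 1 / ((k : ℝ) * ((k : ℝ) + 2)))

theorem P_nonneg (k : ℕ) : 0 ≤ P k := by
  unfold P
  split_ifs with h
  · exact le_rfl
  · apply Real.logb_nonneg one_lt_two
    have : 0 ≤ 1 / ((k : ℝ) * ((k : ℝ) + 2)) := by positivity
    linarith

theorem P_pos (k : ℕ) (hk : k ≠ 0) : 0 < P k := by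
  unfold P
  rw [if_neg hk]
  apply Real.logb_pos one_lt_two
  have : (0 : ℝ) < k := by exact_mod_cast Nat.pos_of_ne_zero hk
  have : 0 < 1 / ((k : ℝ) * ((k : ℝ) + 2)) := by positivity
  linarith

theorem P_sum (n : ℕ) : ∑ k ∈ Finset.range n, P k = Real.logb 2 (2 * (n : ℝ) / ((n : ℝ) + 1)) ∨ n = 0 := by
  rcases n with _ | n
  · right; rfl
  left
  induction n with
  | zero =>
    have : (2 : ℝ) * ((0 + 1 : ℕ) : ℝ) / (((0 + 1 : ℕ) : ℝ) + 1) = 1 := by norm_num
    rw [this]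
    simp [P]
  | succ n ih =>
    rw [Finset.sum_range_succ, ih]
    have h : P (n + 1) = Real.logb 2 (1 + 1 / (((n + 1 : ℕ) : ℝ) * (((n + 1 : ℕ) : ℝ) + 2))) := by
      unfold P; rw [if_neg (by omega)]
    rw [h, ← Real.logb_mul (by positivity) (by positivity)]
    congr 1
    push_cast
    field_simp
    ring

theorem P_hasSum : HasSum P 1 := by
  rw [hasSum_iff_tendsto_nat_of_nonneg P_nonneg]
  have h1 : Tendsto (fun n : ℕ => Real.logb 2 (2 * (n : ℝ) / ((n : ℝ) + 1))) atTop (𝓝 1) := by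
    have h2 : Tendsto (fun n : ℕ => 2 * (n : ℝ) / ((n : ℝ) + 1)) atTop (𝓝 2) := by
      have h3 : Tendsto (fun n : ℕ => 2 - 2 * (1 / ((n : ℝ) + 1))) atTop (𝓝 (2 - 2 * 0)) :=
        tendsto_const_nhds.sub ((tendsto_one_div_add_atTop_nhds_zero_nat (𝕜 := ℝ)).const_mul 2)
      simp only [mul_zero, sub_zero] at h3
      refine h3.congr fun n => ?_
      field_simp
      ring
    have h4 : Tendsto (fun x : ℝ => Real.logb 2 x) (𝓝 2) (𝓝 (Real.logb 2 2)) :=
      (Real.continuousAt_logb (by norm_num)).tendsto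
    rw [Real.logb_self_eq_one one_lt_two] at h4
    exact h4.comp h2
  refine h1.congr' ?_
  filter_upwards [eventually_ge_atTop 1] with n hn
  rcases P_sum n with h | h
  · exact h.symm
  · omega

/-- sum of the frequencies of the even digits 2, ..., 48 -/
noncomputable def eE : ℝ := ∑ j ∈ Finset.range 24, P (2 * j + 2)
/-- sum of the frequencies of the odd digits 3, ..., 49 -/
noncomputable def oO : ℝ := ∑ j ∈ Finset.range 24, P (2 * j + 3)

theorem P_eq_div (k : ℕ) (hk : k ≠ 0) :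
    P k = Real.logb 2 (((k : ℝ) + 1) ^ 2 / ((k : ℝ) * ((k : ℝ) + 2))) := by
  unfold P
  rw [if_neg hk]
  congr 1
  have : (0 : ℝ) < k := by exact_mod_cast Nat.pos_of_ne_zero hk
  field_simp
  ring

theorem eE_ge : 1 / 3 ≤ eE := by
  have h1 : eE = Real.logb 2 (∏ j ∈ Finset.range 24,
      ((((2 * j + 2 : ℕ) : ℝ) + 1) ^ 2 / (((2 * j + 2 : ℕ) : ℝ) * (((2 * j + 2 : ℕ) : ℝ) + 2)))) := by
    rw [Real.logb_prod _ _ (fun j _ => by positivity)]
    unfold eE
    exact Finset.sum_congr rfl fun j _ => P_eq_div _ (by omega)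
  have h2 : (2 : ℝ) ≤ (∏ j ∈ Finset.range 24,
      ((((2 * j + 2 : ℕ) : ℝ) + 1) ^ 2 / (((2 * j + 2 : ℕ) : ℝ) * (((2 * j + 2 : ℕ) : ℝ) + 2)))) ^ 3 := by
    simp only [Finset.prod_range_succ, Finset.prod_range_zero]
    norm_num
  have h3 : Real.logb 2 2 ≤ Real.logb 2 ((∏ j ∈ Finset.range 24,
      ((((2 * j + 2 : ℕ) : ℝ) + 1) ^ 2 / (((2 * j + 2 : ℕ) : ℝ) * (((2 * j + 2 : ℕ) : ℝ) + 2)))) ^ 3) :=
    Real.logb_le_logb_of_le one_lt_two (by norm_num) h2
  rw [Real.logb_self_eq_one one_lt_two, Real.logb_pow, ← h1] at h3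
  push_cast at h3
  linarith

theorem oO_ge : 2 / 9 ≤ oO := by
  have h1 : oO = Real.logb 2 (∏ j ∈ Finset.range 24,
      ((((2 * j + 3 : ℕ) : ℝ) + 1) ^ 2 / (((2 * j + 3 : ℕ) : ℝ) * (((2 * j + 3 : ℕ) : ℝ) + 2)))) := by
    rw [Real.logb_prod _ _ (fun j _ => by positivity)]
    unfold oO
    exact Finset.sum_congr rfl fun j _ => P_eq_div _ (by omega)
  have h2 : (2 : ℝ) ^ 2 ≤ (∏ j ∈ Finset.range 24,
      ((((2 * j + 3 : ℕ) : ℝ) + 1) ^ 2 / (((2 * j + 3 : ℕ) : ℝ) * (((2 * j + 3 : ℕ) : ℝ) + 2)))) ^ 9 := by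
    simp only [Finset.prod_range_succ, Finset.prod_range_zero]
    norm_num
  have h3 : Real.logb 2 (2 ^ 2) ≤ Real.logb 2 ((∏ j ∈ Finset.range 24,
      ((((2 * j + 3 : ℕ) : ℝ) + 1) ^ 2 / (((2 * j + 3 : ℕ) : ℝ) * (((2 * j + 3 : ℕ) : ℝ) + 2)))) ^ 9) :=
    Real.logb_le_logb_of_le one_lt_two (by norm_num) h2
  rw [Real.logb_pow, Real.logb_self_eq_one one_lt_two, Real.logb_pow, ← h1] at h3
  push_cast at h3
  linarith

/-- distribution of the even digits in the first places of the blocks -/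
noncomputable def wE (k : ℕ) : ℝ := if k ∈ (Finset.range 24).image (fun j => 2 * j + 2) then P k / eE else 0
/-- distribution of the odd digits -/
noncomputable def wO (k : ℕ) : ℝ := if k ∈ (Finset.range 24).image (fun j => 2 * j + 3) then P k / oO else 0
/-- distribution of the doubled digits -/
noncomputable def wA (k : ℕ) : ℝ := 9 / 4 * (P k - 1 / 3 * wE k - 2 / 9 * wO k)

theorem eE_pos : 0 < eE := lt_of_lt_of_le (by norm_num) eE_ge
theorem oO_pos : 0 < oO := lt_of_lt_of_le (by norm_num) oO_ge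

theorem wE_nonneg (k : ℕ) : 0 ≤ wE k := by
  unfold wE; split_ifs
  · exact div_nonneg (P_nonneg k) eE_pos.le
  · exact le_rfl

theorem wO_nonneg (k : ℕ) : 0 ≤ wO k := by
  unfold wO; split_ifs
  · exact div_nonneg (P_nonneg k) oO_pos.le
  · exact le_rfl

theorem wA_nonneg (k : ℕ) : 0 ≤ wA k := by
  unfold wA
  have hP := P_nonneg k
  have h1 : 1 / 3 * (P k / eE) ≤ P k := by
    rw [mul_div_assoc', div_le_iff₀ eE_pos]
    nlinarith [eE_ge]
  have h2 : 2 / 9 * (P k / oO) ≤ P k := by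
    rw [mul_div_assoc', div_le_iff₀ oO_pos]
    nlinarith [oO_ge]
  by_cases hE : k ∈ (Finset.range 24).image (fun j => 2 * j + 2)
  · have hO : k ∉ (Finset.range 24).image (fun j => 2 * j + 3) := by
      intro hO
      rw [Finset.mem_image] at hE hO
      obtain ⟨i, _, hi⟩ := hE
      obtain ⟨j, _, hj⟩ := hO
      omega
    rw [wE, wO, if_pos hE, if_neg hO]
    linarith
  · rw [wE, wO, if_neg hE]
    split_ifs
    · linarith
    · linarith

theorem wE_hasSum : HasSum wE 1 := by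
  have h1 : HasSum wE (∑ k ∈ (Finset.range 24).image (fun j => 2 * j + 2), wE k) :=
    hasSum_sum_of_ne_finset_zero (fun k hk => by rw [wE, if_neg hk])
  have h2 : ∑ k ∈ (Finset.range 24).image (fun j => 2 * j + 2), wE k = 1 := by
    rw [Finset.sum_congr rfl (g := fun k => P k / eE) (fun k hk => by rw [wE, if_pos hk])]
    rw [← Finset.sum_div, Finset.sum_image (by intro a _ b _ h; simpa using h)]
    exact div_self eE_pos.ne'
  rwa [h2] at h1

theorem wO_hasSum : HasSum wO 1 := by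
  have h1 : HasSum wO (∑ k ∈ (Finset.range 24).image (fun j => 2 * j + 3), wO k) :=
    hasSum_sum_of_ne_finset_zero (fun k hk => by rw [wO, if_neg hk])
  have h2 : ∑ k ∈ (Finset.range 24).image (fun j => 2 * j + 3), wO k = 1 := by
    rw [Finset.sum_congr rfl (g := fun k => P k / oO) (fun k hk => by rw [wO, if_pos hk])]
    rw [← Finset.sum_div, Finset.sum_image (by intro a _ b _ h; simpa using h)]
    exact div_self oO_pos.ne'
  rwa [h2] at h1

theorem wA_hasSum : HasSum wA 1 := by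
  have h := ((P_hasSum.sub (wE_hasSum.mul_left (1 / 3))).sub (wO_hasSum.mul_left (2 / 9))).mul_left (9 / 4)
  have e : (9 / 4 : ℝ) * (1 - 1 / 3 * 1 - 2 / 9 * 1) = 1 := by norm_num
  rw [e] at h
  exact h

theorem w_total (k : ℕ) : 3 * wE k + 2 * wO k + 4 * wA k = 9 * P k := by
  unfold wA; ring

theorem wE_supp (k : ℕ) (h : 0 < wE k) : ∃ j, j < 24 ∧ k = 2 * j + 2 := by
  unfold wE at h
  split_ifs at h with h1
  · rw [Finset.mem_image] at h1
    obtain ⟨j, hj, h2⟩ := h1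
    exact ⟨j, Finset.mem_range.1 hj, h2.symm⟩
  · exact absurd h (lt_irrefl _)

theorem wO_supp (k : ℕ) (h : 0 < wO k) : ∃ j, j < 24 ∧ k = 2 * j + 3 := by
  unfold wO at h
  split_ifs at h with h1
  · rw [Finset.mem_image] at h1
    obtain ⟨j, hj, h2⟩ := h1
    exact ⟨j, Finset.mem_range.1 hj, h2.symm⟩
  · exact absurd h (lt_irrefl _)

theorem wA_supp (k : ℕ) (h : 0 < wA k) : 1 ≤ k := by
  by_contra hk
  have : k = 0 := by omega
  subst this
  have h1 : wA 0 ≤ 0 := by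
    unfold wA
    have := wE_nonneg 0
    have := wO_nonneg 0
    have : P 0 = 0 := by simp [P]
    linarith
  linarith

end Pool.Agent.Helper17.MF
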