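import Pool.Agent.Helper17.MF.CF
import Pool.Agent.Helper17.MF.Freq
import Pool.Agent.Helper17.MF.Weights
import Pool.Agent.Helper17.MF.Blocks

set_option autoImplicit false
open Filter Topology

namespace Pool.Agent.Helper17.MF

/-- the type of the place `r` in a block of length `9` -/
def place (E O A : ℕ → ℕ) (r : ℕ) : ℕ → ℕ :=
  if r = 0 ∨ r = 2 ∨ r = 4 then E else if r = 6 ∨ r = 7 then O else A

/-- the digits of `x` -/
def dig (E O A : ℕ → ℕ) (n : ℕ) : ℕ := place E O A (n % 9) (n / 9)

/-- the digits of `2 x` -/
def out (E O A : ℕ → ℕ) (n : ℕ) : ℕ :=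
  if n % 11 = 0 ∨ n % 11 = 2 ∨ n % 11 = 4 then E (n / 11) / 2
  else if n % 11 = 6 ∨ n % 11 = 9 then (O (n / 11) - 1) / 2
  else if n % 11 = 7 ∨ n % 11 = 8 then 1
  else 2 * A (n / 11)

/-- the tails of `2 x` -/
noncomputable def tl (t : ℕ → ℝ) (n : ℕ) : ℝ :=
  if n % 11 = 0 ∨ n % 11 = 2 ∨ n % 11 = 4 ∨ n % 11 = 6 then 2 * t (9 * (n / 11) + n % 11)
  else if n % 11 = 1 ∨ n % 11 = 3 ∨ n % 11 = 5 then t (9 * (n / 11) + n % 11) / 2
  else if n % 11 = 7 then (1 + t (9 * (n / 11) + 7)) / 2
  else if n % 11 = 8 then (1 - t (9 * (n / 11) + 7)) / (1 + t (9 * (n / 11) + 7))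
  else if n % 11 = 9 then 2 * t (9 * (n / 11) + 7) / (1 - t (9 * (n / 11) + 7))
  else t (9 * (n / 11) + 8) / 2

theorem main : ∃ x : ℝ, (∀ k : ℕ, 1 ≤ k → Tendsto
      (fun n : ℕ => (∑ i ∈ Finset.range n,
        (if (GenContFract.of x).partDens.get? i = some (k : ℝ) then (1 : ℝ) else 0)) / (n : ℝ))
      atTop (𝓝 (P k))) ∧
    ∀ i, (GenContFract.of (2 * x)).partDens.get? i ≠ some (25 : ℝ) := by
  classical
  obtain ⟨E, hE1, hE2⟩ := exists_seq_freq wE wE_nonneg wE_hasSum
  obtain ⟨O, hO1, hO2⟩ := exists_seq_freq wO wO_nonneg wO_hasSum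
  obtain ⟨A, hA1, hA2⟩ := exists_seq_freq wA wA_nonneg wA_hasSum
  have hE : ∀ n, ∃ j, j < 24 ∧ E n = 2 * j + 2 := fun n => wE_supp _ (hE1 n)
  have hO : ∀ n, ∃ j, j < 24 ∧ O n = 2 * j + 3 := fun n => wO_supp _ (hO1 n)
  have hA : ∀ n, 1 ≤ A n := fun n => wA_supp _ (hA1 n)
  have hd : ∀ n, 1 ≤ dig E O A n := by
    intro n
    unfold dig place
    split_ifs
    · obtain ⟨j, _, h⟩ := hE (n / 9); omega
    · obtain ⟨j, _, h⟩ := hO (n / 9); omega
    · exact hA _
  obtain ⟨t, ht, hrec⟩ := exists_tails (dig E O A) hd
  refine ⟨t 0, ?_, ?_⟩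
  · -- the frequencies of the digits of `x`
    intro k hk
    have hdig : ∀ r < 9, ∀ i, dig E O A (9 * i + r) = place E O A r i := by
      intro r hr i
      unfold dig
      have e1 : (9 * i + r) % 9 = r := by omega
      have e2 : (9 * i + r) / 9 = i := by omega
      rw [e1, e2]
    have hfreq := avg_of_classes 9 (by norm_num)
      (fun i => if dig E O A i = k then (1 : ℝ) else 0)
      (fun n => by split_ifs <;> simp)
      (fun r => if r = 0 ∨ r = 2 ∨ r = 4 then wE k else if r = 6 ∨ r = 7 then wO k else wA k)
      (by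
        intro r hr
        simp only [hdig r hr]
        unfold place
        split_ifs
        · exact hE2 k
        · exact hO2 k
        · exact hA2 k)
    have hval : (∑ r ∈ Finset.range 9,
        (if r = 0 ∨ r = 2 ∨ r = 4 then wE k else if r = 6 ∨ r = 7 then wO k else wA k)) / ((9 : ℕ) : ℝ)
        = P k := by
      simp only [Finset.sum_range_succ, Finset.sum_range_zero]
      norm_num
      have := w_total k
      linarith
    rw [hval] at hfreq
    refine hfreq.congr fun n => ?_
    congr 1
    refine Finset.sum_congr rfl fun i _ => ?_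
    rw [partDens_of_tails _ t ht hrec i]
    simp
  · -- the digits of `2 x`
    have hsmall : ∀ n, 2 ≤ dig E O A n → t n < 1 / 2 := by
      intro n hn
      have h1 := hrec n
      have h2 : (2 : ℝ) < (t n)⁻¹ := by
        rw [h1]
        have : (2 : ℝ) ≤ (dig E O A n : ℝ) := by exact_mod_cast hn
        linarith [(ht (n + 1)).1]
      rw [lt_inv_comm₀ (by norm_num) (ht n).1] at h2
      linarith
    have hthird : ∀ n, 3 ≤ dig E O A n → t n < 1 / 3 := by
      intro n hn
      have h1 := hrec n
      have h2 : (3 : ℝ) < (t n)⁻¹ := by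
        rw [h1]
        have : (3 : ℝ) ≤ (dig E O A n : ℝ) := by exact_mod_cast hn
        linarith [(ht (n + 1)).1]
      rw [lt_inv_comm₀ (by norm_num) (ht n).1] at h2
      linarith
    have hdE : ∀ i r, (r = 0 ∨ r = 2 ∨ r = 4) → dig E O A (9 * i + r) = E i := by
      intro i r hr
      unfold dig place
      have e1 : (9 * i + r) % 9 = r := by omega
      have e2 : (9 * i + r) / 9 = i := by omega
      rw [e1, e2, if_pos hr]
    have hdO : ∀ i r, (r = 6 ∨ r = 7) → dig E O A (9 * i + r) = O i := by
      intro i r hr
      unfold dig place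
      have e1 : (9 * i + r) % 9 = r := by omega
      have e2 : (9 * i + r) / 9 = i := by omega
      rw [e1, e2, if_neg (by omega), if_pos hr]
    have hdA : ∀ i r, (r = 1 ∨ r = 3 ∨ r = 5 ∨ r = 8) → dig E O A (9 * i + r) = A i := by
      intro i r hr
      unfold dig place
      have e1 : (9 * i + r) % 9 = r := by omega
      have e2 : (9 * i + r) / 9 = i := by omega
      rw [e1, e2, if_neg (by omega), if_neg (by omega)]
    have hE2' : ∀ i, 2 ≤ E i := fun i => by obtain ⟨j, _, h⟩ := hE i; omega
    have hO3' : ∀ i, 3 ≤ O i := fun i => by obtain ⟨j, _, h⟩ := hO i; omega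
    -- the tails of `2 x` lie in `(0, 1)`
    have htl : ∀ n, 0 < tl t n ∧ tl t n < 1 := by
      intro n
      unfold tl
      have hcases : n % 11 < 11 := Nat.mod_lt _ (by norm_num)
      split_ifs with h1 h2 h3 h4 h5
      · have hlt : t (9 * (n / 11) + n % 11) < 1 / 2 := by
          apply hsmall
          by_cases h6 : n % 11 = 6
          · rw [h6, hdO _ 6 (Or.inl rfl)]; have := hO3' (n / 11); omega
          · rw [hdE _ _ (by omega)]; exact hE2' _
        constructor
        · linarith [(ht (9 * (n / 11) + n % 11)).1]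
        · linarith
      · have := ht (9 * (n / 11) + n % 11)
        constructor
        · linarith [this.1]
        · linarith [this.2]
      · have := ht (9 * (n / 11) + 7)
        constructor
        · linarith [this.1]
        · linarith [this.2]
      · have := ht (9 * (n / 11) + 7)
        have hp : 0 < 1 + t (9 * (n / 11) + 7) := by linarith [this.1]
        constructor
        · exact div_pos (by linarith [this.2]) hp
        · rw [div_lt_one hp]; linarith [this.1]
      · have := ht (9 * (n / 11) + 7)
        have hlt : t (9 * (n / 11) + 7) < 1 / 3 := by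
          apply hthird
          rw [hdO _ 7 (Or.inr rfl)]; exact hO3' _
        have hp : 0 < 1 - t (9 * (n / 11) + 7) := by linarith
        constructor
        · exact div_pos (by linarith [this.1]) hp
        · rw [div_lt_one hp]; linarith
      · have := ht (9 * (n / 11) + 8)
        constructor
        · linarith [this.1]
        · linarith [this.2]
    -- the recursion
    have hrec2 : ∀ n, (tl t n)⁻¹ = (out E O A n : ℝ) + tl t (n + 1) := by
      intro n
      obtain ⟨i, r, hr, rfl⟩ : ∃ i r, r < 11 ∧ n = 11 * i + r :=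
        ⟨n / 11, n % 11, Nat.mod_lt _ (by norm_num), (Nat.div_add_mod n 11).symm⟩
      have hposE : ∀ r, (r = 0 ∨ r = 2 ∨ r = 4) →
          (2 * t (9 * i + r))⁻¹ = ((E i / 2 : ℕ) : ℝ) + t (9 * i + r + 1) / 2 := by
        intro r hr
        obtain ⟨j, _, hj⟩ := hE i
        have h1 := hrec (9 * i + r)
        rw [hdE i r hr, hj] at h1
        have h2 : E i / 2 = j + 1 := by omega
        rw [h2, mul_inv, h1]
        push_cast
        ring
      have hposA : ∀ r, (r = 1 ∨ r = 3 ∨ r = 5 ∨ r = 8) →
          (t (9 * i + r) / 2)⁻¹ = ((2 * A i : ℕ) : ℝ) + 2 * t (9 * i + r + 1) := by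
        intro r hr
        have h1 := hrec (9 * i + r)
        rw [hdA i r hr] at h1
        rw [inv_div, div_eq_mul_inv, h1]
        push_cast
        ring
      have hcase : r = 0 ∨ r = 1 ∨ r = 2 ∨ r = 3 ∨ r = 4 ∨ r = 5 ∨ r = 6 ∨ r = 7 ∨ r = 8 ∨ r = 9 ∨
        r = 10 := by omega
      have m0 : ∀ s < 11, (11 * i + s) % 11 = s := fun s hs => by omega
      have d0 : ∀ s < 11, (11 * i + s) / 11 = i := fun s hs => by omega
      rcases hcase with rfl | rfl | rfl | rfl | rfl | rfl | rfl | rfl | rfl | rfl | rfl
      · have e1 : (11 * i + 0 + 1) % 11 = 1 := by omega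
        have e2 : (11 * i + 0 + 1) / 11 = i := by omega
        simp only [tl, out, m0 0 (by norm_num), d0 0 (by norm_num), e1, e2]
        norm_num
        have := hposE 0 (by norm_num)
        simpa using this
      · have e1 : (11 * i + 1 + 1) % 11 = 2 := by omega
        have e2 : (11 * i + 1 + 1) / 11 = i := by omega
        simp only [tl, out, m0 1 (by norm_num), d0 1 (by norm_num), e1, e2]
        norm_num
        have := hposA 1 (by norm_num)
        simpa using this
      · have e1 : (11 * i + 2 + 1) % 11 = 3 := by omega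
        have e2 : (11 * i + 2 + 1) / 11 = i := by omega
        simp only [tl, out, m0 2 (by norm_num), d0 2 (by norm_num), e1, e2]
        norm_num
        have := hposE 2 (by norm_num)
        simpa using this
      · have e1 : (11 * i + 3 + 1) % 11 = 4 := by omega
        have e2 : (11 * i + 3 + 1) / 11 = i := by omega
        simp only [tl, out, m0 3 (by norm_num), d0 3 (by norm_num), e1, e2]
        norm_num
        have := hposA 3 (by norm_num)
        simpa using this
      · have e1 : (11 * i + 4 + 1) % 11 = 5 := by omega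
        have e2 : (11 * i + 4 + 1) / 11 = i := by omega
        simp only [tl, out, m0 4 (by norm_num), d0 4 (by norm_num), e1, e2]
        norm_num
        have := hposE 4 (by norm_num)
        simpa using this
      · have e1 : (11 * i + 5 + 1) % 11 = 6 := by omega
        have e2 : (11 * i + 5 + 1) / 11 = i := by omega
        simp only [tl, out, m0 5 (by norm_num), d0 5 (by norm_num), e1, e2]
        norm_num
        have := hposA 5 (by norm_num)
        simpa using this
      · have e1 : (11 * i + 6 + 1) % 11 = 7 := by omega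
        have e2 : (11 * i + 6 + 1) / 11 = i := by omega
        simp only [tl, out, m0 6 (by norm_num), d0 6 (by norm_num), e1, e2]
        norm_num
        obtain ⟨j, _, hj⟩ := hO i
        have h1 := hrec (9 * i + 6)
        rw [hdO i 6 (by norm_num), hj] at h1
        have h2 : (O i - 1) / 2 = j + 1 := by omega
        rw [h2, h1]
        push_cast
        ring
      · have e1 : (11 * i + 7 + 1) % 11 = 8 := by omega
        have e2 : (11 * i + 7 + 1) / 11 = i := by omega
        simp only [tl, out, m0 7 (by norm_num), d0 7 (by norm_num), e1, e2]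
        norm_num
        have := (ht (9 * i + 7)).1
        field_simp
        ring
      · have e1 : (11 * i + 8 + 1) % 11 = 9 := by omega
        have e2 : (11 * i + 8 + 1) / 11 = i := by omega
        simp only [tl, out, m0 8 (by norm_num), d0 8 (by norm_num), e1, e2]
        norm_num
        have h3 : 1 - t (9 * i + 7) ≠ 0 := by linarith [(ht (9 * i + 7)).2]
        field_simp
        ring
      · have e1 : (11 * i + 9 + 1) % 11 = 10 := by omega
        have e2 : (11 * i + 9 + 1) / 11 = i := by omega
        simp only [tl, out, m0 9 (by norm_num), d0 9 (by norm_num), e1, e2]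
        norm_num
        obtain ⟨j, _, hj⟩ := hO i
        have h1 := hrec (9 * i + 7)
        rw [hdO i 7 (by norm_num), hj] at h1
        have h2 : (O i - 1) / 2 = j + 1 := by omega
        have h3 : (1 - t (9 * i + 7)) / (2 * t (9 * i + 7)) = ((t (9 * i + 7))⁻¹ - 1) / 2 := by
          have := (ht (9 * i + 7)).1
          field_simp
        rw [h2, h3, h1]
        push_cast
        ring
      · have e1 : (11 * i + 10 + 1) % 11 = 0 := by omega
        have e2 : (11 * i + 10 + 1) / 11 = i + 1 := by omega
        simp only [tl, out, m0 10 (by norm_num), d0 10 (by norm_num), e1, e2]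
        norm_num
        have := hposA 8 (by norm_num)
        have e3 : 9 * (i + 1) = 9 * i + 8 + 1 := by ring
        rw [e3]
        simpa using this
    intro n
    have h0 : tl t 0 = 2 * t 0 := by simp [tl]
    rw [← h0, partDens_of_tails _ _ htl hrec2 n]
    intro h
    have h' : (out E O A n : ℝ) = 25 := by simpa using h
    have h'' : out E O A n = 25 := by exact_mod_cast h'
    unfold out at h''
    obtain ⟨j, hj, hj'⟩ := hE (n / 11)
    obtain ⟨l, hl, hl'⟩ := hO (n / 11)
    split_ifs at h'' <;> omega

end Pool.Agent.Helper17.MF
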